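import Mathlib
import Pool.Graph.R_pool_sql_team_18ca10b6.Results.MP_68df70_lc.HalfLength
import Pool.Agent.Helper94.NA.Const

/-!
The average `N`-adic complexity of the finite `N`-ary sequences of length `n` is
`n / 2 + c_N + o(1)` with an explicit constant `c_N`, and the complexity minus `n / 2` has an
explicit limiting distribution. For prime powers `N = p ^ k` the limiting distribution and the
constant have closed forms: `c_N = (3 ζ(3) / (4 π²) * (9 - p) / (p + 1) - 1 / 2) / ln N`.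
-/

set_option autoImplicit false

namespace Pool.Agent.Results.MP_68df70_lc.LimitLaw

open Finset Filter Topology MeasureTheory

/-- The `N`-adic integer `∑ b i N ^ i` of the infinite `N`-ary sequence `b` is the rational number
`f / g` in lowest terms, `g > 0`: for all `m` one has `g * (∑_{i < m} b i N ^ i) ≡ f` modulo
`N ^ m`. -/
def IsFrac (N : ℕ) (b : ℕ → Fin N) (f g : ℤ) : Prop :=
  0 < g ∧ IsCoprime f g ∧
    ∀ m : ℕ, (N : ℤ) ^ m ∣ g * (∑ i ∈ range m, ((b i : ℕ) : ℤ) * (N : ℤ) ^ i) - f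

/-- The set of the finite values of `λ_N(b) = log_N max(|f|, |g|)`, for the infinite sequences `b`
that extend the finite sequence `a`. -/
def values (N n : ℕ) (a : Fin n → Fin N) : Set ℝ :=
  {x | ∃ (b : ℕ → Fin N) (f g : ℤ), (∀ i : Fin n, b i = a i) ∧ IsFrac N b f g ∧
    x = Real.logb N ((max |f| |g| : ℤ) : ℝ)}

/-- The `N`-adic complexity of a finite sequence. -/
noncomputable def finComplexity (N n : ℕ) (a : Fin n → Fin N) : ℝ := sInf (values N n a)

/-- The average of the complexity over all `N ^ n` sequences of length `n`. -/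
noncomputable def Efin (N n : ℕ) : ℝ := (∑ a : Fin n → Fin N, finComplexity N n a) / (N : ℝ) ^ n

/-- The density constant `ρ_N = (6 / π²) ∏_{p ∣ N} p / (p + 1)`. -/
noncomputable def rho (N : ℕ) : ℝ :=
  6 / Real.pi ^ 2 * ∏ p ∈ N.primeFactors, ((p : ℝ) / (p + 1))

/-- The region `E_N(r)`: the points `(y, t, q)` with `0 ≤ t < 1`, `q > 0` and
`q * max(1, y²) ≤ r²`, such that for all integers `a`, `b` with `gcd(a, b N) = 1` one has
`q * max(1, |y|) ≤ max(q * |a + b N t|, |q y (a + b N t) - b|)`. -/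
def region (N : ℕ) (r : ℝ) : Set (ℝ × ℝ × ℝ) :=
  {p | (0 ≤ p.2.1 ∧ p.2.1 < 1) ∧ 0 < p.2.2 ∧ p.2.2 * max 1 (p.1 ^ 2) ≤ r ^ 2 ∧
    ∀ a b : ℤ, IsCoprime a (b * N) → p.2.2 * max 1 |p.1| ≤
      max (p.2.2 * |a + b * N * p.2.1|) |p.2.2 * p.1 * (a + b * N * p.2.1) - b|}

/-- The limit distribution `F_N(r) = (ρ_N / 2) vol E_N(r)`. -/
noncomputable def limitF (N : ℕ) (r : ℝ) : ℝ := rho N / 2 * (volume (region N r)).toReal

/-- The constant `c_N = (1 / ln N) (∫_1^∞ (1 - F_N(r)) dr / r - ∫_0^1 F_N(r) dr / r)`. -/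
noncomputable def limitC (N : ℕ) : ℝ :=
  ((∫ r in Set.Ioi (1 : ℝ), (1 - limitF N r) / r) - ∫ r in Set.Ioc (0 : ℝ) 1, limitF N r / r) /
    Real.log N

/-- The weight `w(s)`: it is `0` for `s ≤ 1 / 2` and `1 - d + d ln d` with `d = |1 / s - 1|`
otherwise (here `0 ln 0 = 0`). -/
noncomputable def weight (s : ℝ) : ℝ :=
  if s ≤ 1 / 2 then 0 else 1 - |1 / s - 1| + |1 / s - 1| * Real.log |1 / s - 1|

/-- The density: `1 - (φ(N) / N) w(s)` for `s ≤ 1` and `(1 - φ(N) / N) w(s)` for `s > 1`. -/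
noncomputable def dens (N : ℕ) (s : ℝ) : ℝ :=
  if s ≤ 1 then 1 - (N.totient : ℝ) / N * weight s else (1 - (N.totient : ℝ) / N) * weight s

/-- The number `ζ(3) = ∑ 1 / n³`. -/
noncomputable def zeta3 : ℝ := ∑' n : ℕ, 1 / ((n : ℝ) + 1) ^ 3

open Pool.Agent.H25.Adic Pool.Agent.Helper94.NA

lemma dens_eq (N : ℕ) (s : ℝ) : dens N s = dG ((N.totient : ℝ) / N) s := rfl

lemma zeta3_eq : zeta3 = Z3 := rfl

lemma region_eq (N : ℕ) (r : ℝ) : region N r = Ele N r := rfl

lemma limitF_eq (N : ℕ) (r : ℝ) : limitF N r = FN N r := rfl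

lemma finComplexity_eq' {N : ℕ} (hN : 2 ≤ N) (n : ℕ) (a : Fin n → Fin N) :
    finComplexity N n a =
      Real.logb N (Hh N n (Pool.Agent.Results.MP_68df70_lc.HalfLength.val N n a) : ℝ) :=
  Pool.Agent.Results.MP_68df70_lc.HalfLength.finComplexity_eq hN n a

lemma ncard_eq {N : ℕ} (hN : 2 ≤ N) (n : ℕ) (s : ℝ) :
    ({a : Fin n → Fin N | finComplexity N n a ≤ n / 2 + s}.ncard : ℝ) =
      cntH N n ((N : ℝ) ^ s) := by
  classical
  have hN1 : (1 : ℝ) < N := by exact_mod_cast (by omega : 1 < N)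
  have hN0 : (0 : ℝ) < N := by linarith
  have hiff : ∀ A : ℤ, Real.logb N (Hh N n A : ℝ) ≤ n / 2 + s ↔
      (Hh N n A : ℝ) ≤ (N : ℝ) ^ s * √((N : ℝ) ^ n) := by
    intro A
    have hpos : (0 : ℝ) < Hh N n A := by exact_mod_cast Hh_pos N n A
    rw [Real.logb_le_iff_le_rpow hN1 hpos, Real.rpow_add hN0, mul_comm]
    have : (N : ℝ) ^ ((n : ℝ) / 2) = √((N : ℝ) ^ n) := by
      rw [Real.sqrt_eq_rpow, ← Real.rpow_natCast, ← Real.rpow_mul hN0.le]
      congr 1
      ring
    rw [this]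
  rw [Set.ncard_eq_toFinset_card', Set.toFinset_ofPred, Finset.card_filter]
  unfold cntH
  rw [Finset.card_filter]
  push_cast
  have h1 := Pool.Agent.Results.MP_68df70_lc.HalfLength.sum_eq N n
    (fun A : ℕ => if (Hh N n A : ℝ) ≤ (N : ℝ) ^ s * √((N : ℝ) ^ n) then (1 : ℝ) else 0)
  rw [← h1]
  apply Finset.sum_congr rfl
  intro a _
  rw [finComplexity_eq' hN]
  simp only [hiff]

lemma Efin_eq {N : ℕ} (hN : 2 ≤ N) (n : ℕ) : Efin N n - n / 2 = LL N n / Real.log N := by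
  have hN1 : (1 : ℝ) < N := by exact_mod_cast (by omega : 1 < N)
  have hlog : 0 < Real.log N := Real.log_pos hN1
  have hM : (0 : ℝ) < (N : ℝ) ^ n := by positivity
  have hs0 : 0 < √((N : ℝ) ^ n) := Real.sqrt_pos.2 hM
  have h1 : ∀ a : Fin n → Fin N, finComplexity N n a =
      (fun A : ℕ => Real.log (Hh N n A : ℝ) / Real.log N)
        (Pool.Agent.Results.MP_68df70_lc.HalfLength.val N n a) := by
    intro a
    rw [finComplexity_eq' hN]
    rfl
  have hE : Efin N n = (∑ A ∈ range (N ^ n), Real.log (Hh N n A : ℝ)) / Real.log N /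
      (N : ℝ) ^ n := by
    unfold Efin
    congr 1
    rw [Finset.sum_congr rfl (fun a _ => h1 a), Finset.sum_div]
    exact Pool.Agent.Results.MP_68df70_lc.HalfLength.sum_eq N n
      (fun A : ℕ => Real.log (Hh N n A : ℝ) / Real.log N)
  have hL : ∑ A ∈ range (N ^ n), Real.log ((Hh N n A : ℝ) / √((N : ℝ) ^ n)) =
      (∑ A ∈ range (N ^ n), Real.log (Hh N n A : ℝ)) - (N : ℝ) ^ n * (n / 2 * Real.log N) := by
    have h2 : ∀ A ∈ range (N ^ n), Real.log ((Hh N n A : ℝ) / √((N : ℝ) ^ n)) =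
        Real.log (Hh N n A : ℝ) - n / 2 * Real.log N := by
      intro A _
      have hpos : (0 : ℝ) < Hh N n A := by exact_mod_cast Hh_pos N n A
      rw [Real.log_div hpos.ne' hs0.ne', Real.log_sqrt hM.le, Real.log_pow]
      ring
    rw [Finset.sum_congr rfl h2, Finset.sum_sub_distrib, Finset.sum_const, card_range,
      nsmul_eq_mul]
    push_cast
    rfl
  unfold LL
  rw [hL, hE]
  field_simp

/-- For every `N ≥ 2`: the infimum in the definition of the complexity of a finite sequence is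
attained; the proportion of the sequences of length `n` whose complexity is at most `n / 2 + s`
tends to `F_N(N ^ s)` for every real `s`; `E_n^fin - n / 2` tends to `c_N`; and
`F_N(r) = 2 ρ_N ∫_0^{r²} dens_N` for `0 ≤ r ≤ 1`. If `N = p ^ k` is a power of a prime `p`, then the
last formula holds for all `r ≥ 0`, and
`c_N = (3 ζ(3) / (4 π²) * (9 - p) / (p + 1) - 1 / 2) / ln N`. -/
theorem result : ∀ N : ℕ, 2 ≤ N →
    (∀ (n : ℕ) (a : Fin n → Fin N), IsLeast (values N n a) (finComplexity N n a)) ∧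
    (∀ s : ℝ, Tendsto (fun n : ℕ =>
      ({a : Fin n → Fin N | finComplexity N n a ≤ n / 2 + s}.ncard : ℝ) / (N : ℝ) ^ n) atTop
      (𝓝 (limitF N ((N : ℝ) ^ s)))) ∧
    Tendsto (fun n : ℕ => Efin N n - n / 2) atTop (𝓝 (limitC N)) ∧
    (∀ r : ℝ, 0 ≤ r → r ≤ 1 → limitF N r = 2 * rho N * ∫ s in (0 : ℝ)..(r ^ 2), dens N s) ∧
    (∀ p k : ℕ, p.Prime → N = p ^ k →
      (∀ r : ℝ, 0 ≤ r → limitF N r = 2 * rho N * ∫ s in (0 : ℝ)..(r ^ 2), dens N s) ∧
      limitC N = (3 * zeta3 / (4 * Real.pi ^ 2) * ((9 - p) / (p + 1)) - 1 / 2) / Real.log N) := by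
  intro N hN
  have hN1 : (1 : ℝ) < N := by exact_mod_cast (by omega : 1 < N)
  refine ⟨?_, ?_, ?_, ?_, ?_⟩
  · intro n a
    rw [finComplexity_eq' hN]
    exact Pool.Agent.Results.MP_68df70_lc.HalfLength.isLeast_values hN n a
  · intro s
    rw [← tendsto_add_atTop_iff_nat 1]
    have h1 := law N hN ((N : ℝ) ^ s) (by positivity)
    refine h1.congr (fun m => ?_)
    rw [← ncard_eq hN (m + 1) s]
  · rw [← tendsto_add_atTop_iff_nat 1]
    have h1 := (mean_tendsto N hN).div_const (Real.log N)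
    refine h1.congr (fun m => ?_)
    rw [← Efin_eq hN (m + 1)]
  · intro r hr0 hr1
    exact FN_eq N hN r (Or.inl (by nlinarith))
  · intro p k hp hk
    obtain ⟨j, rfl⟩ : ∃ j, k = j + 1 := by
      refine ⟨k - 1, ?_⟩
      have : k ≠ 0 := by
        rintro rfl
        rw [hk, pow_zero] at hN
        omega
      omega
    refine ⟨fun r _ => FN_eq N hN r (Or.inr ⟨p, j, hp, hk⟩), ?_⟩
    unfold limitC
    congr 1
    have h1 := const_closed p j hp
    rw [← hk] at h1
    exact h1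

end Pool.Agent.Results.MP_68df70_lc.LimitLaw
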